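import Pool.Agent.MHP.StmtsS

set_option autoImplicit false

open scoped Classical

namespace Pool.Agent.MHP.H81

open Pool.Agent.MHP

/-- EDS: number of edges of a graph with a pendant subgraph. -/
theorem eds : EdsStmt := by
  intro V W _ _ X x C r
  have hset : (glue X x C r).edgeSet =
      (Sym2.map Sum.inl '' X.edgeSet) ∪ (Sym2.map (emb r x) '' C.edgeSet) := by
    ext e
    induction e using Sym2.ind with
    | _ p q =>
      rw [SimpleGraph.mem_edgeSet, glue_adj_iff]
      constructor
      · rintro (⟨a, b, rfl, rfl, h⟩ | ⟨a, b, rfl, rfl, h⟩)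
        · exact Or.inl ⟨s(a, b), h, rfl⟩
        · exact Or.inr ⟨s(a, b), h, rfl⟩
      · rintro (⟨f, hf, he⟩ | ⟨f, hf, he⟩)
        · induction f using Sym2.ind with
          | _ a b =>
            have hf' : X.Adj a b := hf
            have he' : s((Sum.inl a : W ⊕ {v : V // v ≠ r}), Sum.inl b) = s(p, q) := he
            rcases Sym2.eq_iff.1 he' with ⟨h1, h2⟩ | ⟨h1, h2⟩
            · exact Or.inl ⟨a, b, h1.symm, h2.symm, hf'⟩
            · exact Or.inl ⟨b, a, h2.symm, h1.symm, hf'.symm⟩
        · induction f using Sym2.ind with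
          | _ a b =>
            have hf' : C.Adj a b := hf
            have he' : s(emb r x a, emb r x b) = s(p, q) := he
            rcases Sym2.eq_iff.1 he' with ⟨h1, h2⟩ | ⟨h1, h2⟩
            · exact Or.inr ⟨a, b, h1.symm, h2.symm, hf'⟩
            · exact Or.inr ⟨b, a, h2.symm, h1.symm, hf'.symm⟩
  have hdisj : Disjoint (Sym2.map (Sum.inl : W → W ⊕ {v : V // v ≠ r}) '' X.edgeSet)
      (Sym2.map (emb r x) '' C.edgeSet) := by
    rw [Set.disjoint_left]
    rintro e ⟨f, hf, rfl⟩ ⟨g, hg, he⟩
    induction f using Sym2.ind with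
    | _ a b =>
      induction g using Sym2.ind with
      | _ c d =>
        have hf' : X.Adj a b := hf
        have he' : s(emb r x c, emb r x d) =
          s((Sum.inl a : W ⊕ {v : V // v ≠ r}), Sum.inl b) := he
        rcases Sym2.eq_iff.1 he' with ⟨h1, h2⟩ | ⟨h1, h2⟩
        · have e1 := ((inl_eq_emb r x a c).1 h1.symm).1
          have e2 := ((inl_eq_emb r x b d).1 h2.symm).1
          exact hf'.ne (e1.trans e2.symm)
        · have e1 := ((inl_eq_emb r x b c).1 h1.symm).1
          have e2 := ((inl_eq_emb r x a d).1 h2.symm).1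
          exact hf'.ne (e2.trans e1.symm)
  rw [hset, Nat.card_coe_set_eq, Set.ncard_union_eq hdisj (Set.toFinite _) (Set.toFinite _),
    Set.ncard_image_of_injective _ (Sym2.map.injective Sum.inl_injective),
    Set.ncard_image_of_injective _ (Sym2.map.injective (emb_injective r x)),
    ← Nat.card_coe_set_eq, ← Nat.card_coe_set_eq]

end Pool.Agent.MHP.H81
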